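import Pool.Agent.R371.MB.ConeSq

/-!
# Field-dependence of the Betti numbers of the square of a cone edge ideal

If the Betti numbers of the edge ideal `I(G)` depend on the field, so do those of `J²`, where
`J = I(G) + x_{n+1} (x_1, …, x_n)` is the edge ideal of the cone over `G`.
-/

set_option autoImplicit false

namespace Pool.Agent.Results.MP_01886a_al.ConeSquareDepends

open Pool.Agent.R371.MB

/-- The graded Betti numbers of the ideals `J k` (the same generators over every field `k`) depend
on the field. -/
def FieldDependent {m : ℕ} (J : ∀ (k : Type) [Field k], Ideal (MvPolynomial (Fin m) k)) : Prop :=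
  ∃ (k k' : Type) (_ : Field k) (_ : Field k') (i j : ℕ),
    bettiDeg k (J k) i j ≠ bettiDeg k' (J k') i j

theorem result (n : ℕ) (G : SimpleGraph (Fin n))
    (h : FieldDependent fun k _ => edgeIdeal k G) :
    FieldDependent fun k _ => edgeIdeal k (coneGraph G) ^ 2 :=
  main G h

end Pool.Agent.Results.MP_01886a_al.ConeSquareDepends
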